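import Pool.Agent.Helper50.GX.Defs

/-!
# ORD: order of the determinant
-/

set_option autoImplicit false

namespace Pool.Agent.Helper50.GX

open Polynomial

theorem ord_mul {K : Type} [Field K] {p q : K[X]} {d₁ i₁ j₁ d₂ i₂ j₂ : ℕ}
    (h₁ : ∀ s, 3 * s + j₁ < d₁ + i₁ → p.coeff s = 0)
    (h₂ : ∀ s, 3 * s + j₂ < d₂ + i₂ → q.coeff s = 0) (s : ℕ)
    (hs : 3 * s + (j₁ + j₂) < (d₁ + d₂) + (i₁ + i₂)) : (p * q).coeff s = 0 := by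
  rw [coeff_mul]
  refine Finset.sum_eq_zero fun x hx => ?_
  rw [Finset.HasAntidiagonal.mem_antidiagonal] at hx
  by_cases h : 3 * x.1 + j₁ < d₁ + i₁
  · rw [h₁ _ h, zero_mul]
  · rw [h₂ x.2 (by omega), mul_zero]

theorem st_ORD : ST_ORD := by
  intro K _ d s M hM hs
  have h3 : ∀ i₀ j₀ i₁ j₁ i₂ j₂ : Fin 3, (i₀ : ℕ) + i₁ + i₂ = (j₀ : ℕ) + j₁ + j₂ →
      (M i₀ j₀ * M i₁ j₁ * M i₂ j₂).coeff s = 0 := by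
    intro i₀ j₀ i₁ j₁ i₂ j₂ h
    refine ord_mul (ord_mul (hM i₀ j₀) (hM i₁ j₁)) (hM i₂ j₂) s ?_
    omega
  rw [Matrix.det_fin_three]
  simp only [coeff_sub, coeff_add]
  rw [h3 0 0 1 1 2 2 rfl, h3 0 0 1 2 2 1 rfl, h3 0 1 1 0 2 2 rfl, h3 0 1 1 2 2 0 rfl,
    h3 0 2 1 0 2 1 rfl, h3 0 2 1 1 2 0 rfl]
  simp

end Pool.Agent.Helper50.GX
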